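import Pool.Agent.Helper97.Tate.Goals

/-! Project FewPoints (MP_d3128a_ag), packet TATE-SPN (helper25): products of few linear forms. -/

set_option autoImplicit false

namespace Pool.Agent.Helper25.Tate.SPN

open Pool.Agent.Helper97.Tate

/-- the product of binomial coefficients -/
def bb (α β : ℕ) (p : ℤ × ℤ) : ℚ :=
  ((Ring.choose p.1 β : ℤ) : ℚ) * ((Ring.choose p.2 α : ℤ) : ℚ)

/-- the span of the products of binomial coefficients of total degree `< t` -/
def VV (t : ℕ) : Submodule ℚ (ℤ × ℤ → ℚ) :=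
  Submodule.span ℚ {f | ∃ α β : ℕ, α + β < t ∧ f = bb α β}

theorem choose_mul (r : ℤ) (k : ℕ) :
    (r : ℚ) * ((Ring.choose r k : ℤ) : ℚ) =
      ((k : ℚ) + 1) * ((Ring.choose r (k + 1) : ℤ) : ℚ) + (k : ℚ) * ((Ring.choose r k : ℤ) : ℚ) := by
  have h := Ring.choose_smul_choose r (Nat.le_succ k)
  rw [Nat.succ_eq_add_one, Nat.add_sub_cancel_left, Ring.choose_one_right,
    Nat.choose_succ_self_right, nsmul_eq_mul] at h
  have h2 := congrArg (fun z : ℤ => (z : ℚ)) h
  push_cast at h2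
  linear_combination -h2

theorem bb_mem {t α β : ℕ} (h : α + β < t) : bb α β ∈ VV t :=
  Submodule.subset_span ⟨α, β, h, rfl⟩

theorem mul_mem (t : ℕ) (c : ℤ × ℤ × ℤ) (f : ℤ × ℤ → ℚ) (hf : f ∈ VV t) :
    (fun p : ℤ × ℤ => ((c.1 * p.1 + c.2.1 * p.2 + c.2.2 : ℤ) : ℚ) * f p) ∈ VV (t + 1) := by
  unfold VV at hf
  induction hf using Submodule.span_induction with
  | mem f hf =>
    obtain ⟨α, β, h, rfl⟩ := hf
    have e : (fun p : ℤ × ℤ => ((c.1 * p.1 + c.2.1 * p.2 + c.2.2 : ℤ) : ℚ) * bb α β p) =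
        ((c.1 : ℚ) * ((β : ℚ) + 1)) • bb α (β + 1) + ((c.2.1 : ℚ) * ((α : ℚ) + 1)) • bb (α + 1) β +
          ((c.1 : ℚ) * β + (c.2.1 : ℚ) * α + (c.2.2 : ℚ)) • bb α β := by
      funext p
      have h1 := choose_mul p.1 β
      have h2 := choose_mul p.2 α
      simp only [Pi.add_apply, Pi.smul_apply, smul_eq_mul, bb]
      push_cast
      linear_combination (c.1 : ℚ) * ((Ring.choose p.2 α : ℤ) : ℚ) * h1 +
        (c.2.1 : ℚ) * ((Ring.choose p.1 β : ℤ) : ℚ) * h2
    rw [e]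
    refine Submodule.add_mem _ (Submodule.add_mem _ ?_ ?_) ?_
    · exact Submodule.smul_mem _ _ (bb_mem (by omega))
    · exact Submodule.smul_mem _ _ (bb_mem (by omega))
    · exact Submodule.smul_mem _ _ (bb_mem (by omega))
  | zero =>
    have e : (fun p : ℤ × ℤ => ((c.1 * p.1 + c.2.1 * p.2 + c.2.2 : ℤ) : ℚ) *
        (0 : ℤ × ℤ → ℚ) p) = 0 := by
      funext p
      simp
    rw [e]
    exact Submodule.zero_mem _
  | add f g _ _ hf hg =>
    have e : (fun p : ℤ × ℤ => ((c.1 * p.1 + c.2.1 * p.2 + c.2.2 : ℤ) : ℚ) * (f + g) p) =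
        (fun p : ℤ × ℤ => ((c.1 * p.1 + c.2.1 * p.2 + c.2.2 : ℤ) : ℚ) * f p) +
          fun p : ℤ × ℤ => ((c.1 * p.1 + c.2.1 * p.2 + c.2.2 : ℤ) : ℚ) * g p := by
      funext p
      simp only [Pi.add_apply, mul_add]
    rw [e]
    exact Submodule.add_mem _ hf hg
  | smul r f _ hf =>
    have e : (fun p : ℤ × ℤ => ((c.1 * p.1 + c.2.1 * p.2 + c.2.2 : ℤ) : ℚ) * (r • f) p) =
        r • fun p : ℤ × ℤ => ((c.1 * p.1 + c.2.1 * p.2 + c.2.2 : ℤ) : ℚ) * f p := by
      funext p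
      simp only [Pi.smul_apply, smul_eq_mul]
      ring
    rw [e]
    exact Submodule.smul_mem _ _ hf

theorem prod_mem (l : List (ℤ × ℤ × ℤ)) :
    (fun p : ℤ × ℤ => (l.map fun c => ((c.1 * p.1 + c.2.1 * p.2 + c.2.2 : ℤ) : ℚ)).prod) ∈
      VV (l.length + 1) := by
  induction l with
  | nil =>
    have e : (fun p : ℤ × ℤ => (([] : List (ℤ × ℤ × ℤ)).map fun c =>
        ((c.1 * p.1 + c.2.1 * p.2 + c.2.2 : ℤ) : ℚ)).prod) = bb 0 0 := by
      funext p
      simp [bb]
    rw [e]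
    exact bb_mem (by simp)
  | cons c l ih =>
    have h := mul_mem (l.length + 1) c _ ih
    simpa only [List.map_cons, List.prod_cons, List.length_cons] using h

theorem VV_mono {s t : ℕ} (h : s ≤ t) : VV s ≤ VV t := by
  refine Submodule.span_mono ?_
  rintro f ⟨α, β, h1, rfl⟩
  exact ⟨α, β, lt_of_lt_of_le h1 h, rfl⟩

/-- **SPN** -/
theorem t : S_SPN := by
  intro M S a ha l hl
  have hmem := VV_mono (show l.length + 1 ≤ M by omega) (prod_mem l)
  have key : ∀ f ∈ VV M, ∑ p ∈ S, a p * f p = 0 := by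
    intro f hf
    unfold VV at hf
    induction hf using Submodule.span_induction with
    | mem f hf =>
      obtain ⟨α, β, h, rfl⟩ := hf
      exact ha α β h
    | zero => simp
    | add f g _ _ hf hg =>
      simp only [Pi.add_apply, mul_add, Finset.sum_add_distrib, hf, hg, add_zero]
    | smul r f _ hf =>
      have e : ∑ p ∈ S, a p * (r • f) p = r * ∑ p ∈ S, a p * f p := by
        rw [Finset.mul_sum]
        refine Finset.sum_congr rfl fun p _ => ?_
        simp only [Pi.smul_apply, smul_eq_mul]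
        ring
      rw [e, hf, mul_zero]
  exact key _ hmem

end Pool.Agent.Helper25.Tate.SPN
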